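import Mathlib

set_option autoImplicit false

/-! The primes and the orders of `b` modulo the primes. -/

namespace Pool.Agent.helper391_PT

open Finset

/-- few primes have a given order -/
theorem card_ord (b e : ℕ) (hb : 2 ≤ b) (he : 1 ≤ e) (S : Finset ℕ)
    (hS : ∀ p ∈ S, p.Prime ∧ orderOf (b : ZMod p) = e) : S.card ≤ b * e := by
  have h1 : ∏ p ∈ S, p ∣ b ^ e - 1 := by
    apply Finset.prod_primes_dvd
    · intro p hp; exact (hS p hp).1.prime
    · intro p hp
      obtain ⟨hp1, hp2⟩ := hS p hp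
      have h2 : (b : ZMod p) ^ e = 1 := by rw [← hp2]; exact pow_orderOf_eq_one _
      have h3 : ((b ^ e - 1 : ℕ) : ZMod p) = 0 := by
        rw [Nat.cast_sub (Nat.one_le_pow _ _ (by omega))]
        push_cast
        rw [h2]; simp
      exact (ZMod.natCast_eq_zero_iff _ _).1 h3
  have h2 : 2 ^ S.card ≤ ∏ p ∈ S, p := by
    rw [← Finset.prod_const]
    exact Finset.prod_le_prod' (fun p hp => (hS p hp).1.two_le)
  have h3 : b ^ e ≤ 2 ^ (b * e) := by
    rw [pow_mul]; exact Nat.pow_le_pow_left Nat.lt_two_pow_self.le e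
  have h4 : 2 ^ 1 ≤ b ^ e := (Nat.pow_le_pow_left hb 1).trans (Nat.pow_le_pow_right (by omega) he)
  have h5 := Nat.le_of_dvd (by omega) h1
  have h6 : 2 ^ S.card ≤ 2 ^ (b * e) := by omega
  exact (Nat.pow_le_pow_iff_right (by norm_num)).1 h6

theorem ord_pos {b p : ℕ} (hp : p.Prime) (hpb : ¬ p ∣ b) : 0 < orderOf (b : ZMod p) := by
  haveI := Fact.mk hp
  have h1 : (b : ZMod p) ≠ 0 := fun h => hpb ((ZMod.natCast_eq_zero_iff _ _).1 h)
  rw [orderOf_pos_iff, isOfFinOrder_iff_pow_eq_one]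
  exact ⟨p - 1, by have := hp.two_le; omega, ZMod.pow_card_sub_one_eq_one h1⟩

theorem sum_ord4 (b : ℕ) (hb : 2 ≤ b) : ∃ C : ℝ, 0 < C ∧ ∀ S : Finset ℕ,
    (∀ p ∈ S, p.Prime ∧ ¬ p ∣ b) → ∑ p ∈ S, 1 / (orderOf (b : ZMod p) : ℝ) ^ 4 ≤ C := by
  have hs : Summable (fun n : ℕ => 1 / (n : ℝ) ^ 2) := Real.summable_one_div_nat_pow.2 (by norm_num)
  refine ⟨b * (∑' n : ℕ, 1 / (n : ℝ) ^ 2) + 1, ?_, fun S hS => ?_⟩
  · have : 0 ≤ ∑' n : ℕ, 1 / (n : ℝ) ^ 2 := tsum_nonneg (fun n => by positivity)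
    positivity
  · have h1 := Finset.sum_comp (s := S) (fun e : ℕ => 1 / (e : ℝ) ^ 4)
      (fun p : ℕ => orderOf (b : ZMod p))
    rw [h1]
    have h2 : ∀ e ∈ S.image (fun p : ℕ => orderOf (b : ZMod p)),
        (S.filter (fun p : ℕ => orderOf (b : ZMod p) = e)).card • (1 / (e : ℝ) ^ 4) ≤
          b * (1 / (e : ℝ) ^ 2) := by
      intro e he
      obtain ⟨q, hq, rfl⟩ := Finset.mem_image.1 he
      have he1 : 1 ≤ orderOf (b : ZMod q) := ord_pos (hS q hq).1 (hS q hq).2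
      have h3 := card_ord b (orderOf (b : ZMod q)) hb he1
        (S.filter (fun p : ℕ => orderOf (b : ZMod p) = orderOf (b : ZMod q)))
        (fun p hp => ⟨(hS p (Finset.mem_filter.1 hp).1).1, (Finset.mem_filter.1 hp).2⟩)
      set e := orderOf (b : ZMod q)
      have he1R : (1 : ℝ) ≤ e := by exact_mod_cast he1
      have h4 : (((S.filter (fun p : ℕ => orderOf (b : ZMod p) = e)).card : ℕ) : ℝ) ≤ b * e := by
        exact_mod_cast h3
      rw [nsmul_eq_mul]
      calc (((S.filter (fun p : ℕ => orderOf (b : ZMod p) = e)).card : ℕ) : ℝ) * (1 / (e : ℝ) ^ 4)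
          ≤ (b * e) * (1 / (e : ℝ) ^ 4) := by gcongr
        _ = b * (1 / (e : ℝ) ^ 3) := by field_simp
        _ ≤ b * (1 / (e : ℝ) ^ 2) := by
            gcongr
            norm_num
    calc _ ≤ ∑ e ∈ S.image (fun p : ℕ => orderOf (b : ZMod p)), b * (1 / (e : ℝ) ^ 2) :=
          Finset.sum_le_sum h2
      _ = b * ∑ e ∈ S.image (fun p : ℕ => orderOf (b : ZMod p)), (1 / (e : ℝ) ^ 2) := by
          rw [Finset.mul_sum]
      _ ≤ b * ∑' n : ℕ, 1 / (n : ℝ) ^ 2 := by
          gcongr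
          exact hs.sum_le_tsum _ (fun n _ => by positivity)
      _ ≤ _ := by linarith

theorem sum_tail (b : ℕ) (hb : 2 ≤ b) : ∃ C : ℝ, 0 < C ∧ ∀ t : ℝ, 1 ≤ t → ∀ S : Finset ℕ,
    (∀ p ∈ S, p.Prime ∧ ¬ p ∣ b ∧ t ^ 8 ≤ p) →
      ∑ p ∈ S, 1 / ((p : ℝ) * orderOf (b : ZMod p)) ≤ C / t := by
  obtain ⟨C₁, hC₁, h₁⟩ := sum_ord4 b hb
  have hs : Summable (fun n : ℕ => 1 / (n : ℝ) ^ (9 / 8 : ℝ)) :=
    Real.summable_one_div_nat_rpow.2 (by norm_num)
  set C₂ : ℝ := ∑' n : ℕ, 1 / (n : ℝ) ^ (9 / 8 : ℝ) with hC₂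
  have hC₂0 : 0 ≤ C₂ := tsum_nonneg (fun n => by positivity)
  refine ⟨C₁ + C₂, by positivity, fun t ht S hS => ?_⟩
  have ht0 : 0 < t := by linarith
  have hpt : ∀ p ∈ S, 1 / ((p : ℝ) * orderOf (b : ZMod p)) ≤
      1 / t * (1 / (p : ℝ) ^ (9 / 8 : ℝ) + 1 / (orderOf (b : ZMod p) : ℝ) ^ 4) := by
    intro p hp
    obtain ⟨hp1, hp2, hp3⟩ := hS p hp
    have ho : (1 : ℝ) ≤ orderOf (b : ZMod p) := by exact_mod_cast ord_pos hp1 hp2
    set o : ℝ := (orderOf (b : ZMod p) : ℝ)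
    have hp0 : (0 : ℝ) < p := by exact_mod_cast hp1.pos
    set P : ℝ := (p : ℝ) ^ (1 / 8 : ℝ) with hP
    have hP0 : 0 < P := by positivity
    have hP8 : P ^ 8 = p := by
      rw [hP, ← Real.rpow_natCast, ← Real.rpow_mul hp0.le]; norm_num
    have hP9 : (p : ℝ) ^ (9 / 8 : ℝ) = P ^ 9 := by
      rw [hP, ← Real.rpow_natCast, ← Real.rpow_mul hp0.le]; norm_num
    have htP : t ≤ P := by
      rw [← hP8] at hp3
      exact le_of_pow_le_pow_left₀ (by norm_num) hP0.le hp3
    have hP1 : 1 ≤ P := ht.trans htP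
    rw [hP9, ← hP8]
    have hA : 0 < 1 / P ^ 9 := by positivity
    have hB : 0 < 1 / o ^ 4 := by positivity
    have hkey : 1 / (P ^ 8 * o) ≤ 1 / P * (1 / P ^ 9 + 1 / o ^ 4) := by
      rcases le_total (P ^ 2) o with h | h
      · have h2 : 1 / (P ^ 8 * o) ≤ 1 / P * (1 / P ^ 9) := by
          rw [one_div_mul_one_div]
          apply one_div_le_one_div_of_le (by positivity)
          calc P * P ^ 9 = P ^ 8 * P ^ 2 := by ring
            _ ≤ P ^ 8 * o := by gcongr
            _ = _ := by ring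
        have h3 : 0 ≤ 1 / P * (1 / o ^ 4) := by positivity
        linarith
      · have h2 : 1 / (P ^ 8 * o) ≤ 1 / P * (1 / o ^ 4) := by
          rw [one_div_mul_one_div]
          apply one_div_le_one_div_of_le (by positivity)
          have h4 : o ^ 3 ≤ (P ^ 2) ^ 3 := pow_le_pow_left₀ (by linarith) h 3
          have h5 : (P ^ 2) ^ 3 ≤ P ^ 7 := by
            rw [← pow_mul]; exact pow_le_pow_right₀ hP1 (by norm_num)
          calc P * o ^ 4 = (P * o) * o ^ 3 := by ring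
            _ ≤ (P * o) * P ^ 7 := by gcongr; exact h4.trans h5
            _ = P ^ 8 * o := by ring
        have h3 : 0 ≤ 1 / P * (1 / P ^ 9) := by positivity
        linarith
    refine hkey.trans ?_
    gcongr
  calc ∑ p ∈ S, 1 / ((p : ℝ) * orderOf (b : ZMod p))
      ≤ ∑ p ∈ S, 1 / t * (1 / (p : ℝ) ^ (9 / 8 : ℝ) + 1 / (orderOf (b : ZMod p) : ℝ) ^ 4) :=
        Finset.sum_le_sum hpt
    _ = 1 / t * (∑ p ∈ S, 1 / (p : ℝ) ^ (9 / 8 : ℝ) +
          ∑ p ∈ S, 1 / (orderOf (b : ZMod p) : ℝ) ^ 4) := by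
        rw [← Finset.mul_sum, Finset.sum_add_distrib]
    _ ≤ 1 / t * (C₂ + C₁) := by
        gcongr
        · exact hs.sum_le_tsum _ (fun n _ => by positivity)
        · exact h₁ S (fun p hp => ⟨(hS p hp).1, (hS p hp).2.1⟩)
    _ = _ := by ring

theorem card_modEq (K r v : ℕ) (hr : 0 < r) :
    ((Finset.Ico K (2 * K)).filter (fun k => k ≡ v [MOD r])).card ≤ K / r + 1 := by
  have h1 : ((Finset.Ico K (2 * K)).filter (fun k => k ≡ v [MOD r])).card ≤
      (Finset.range (K / r + 1)).card := by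
    apply Finset.card_le_card_of_injOn (fun k => (k - K) / r)
    · intro k hk
      rw [Finset.mem_coe, Finset.mem_filter, Finset.mem_Ico] at hk
      rw [Finset.mem_coe, Finset.mem_range]
      have : (k - K) / r ≤ K / r := Nat.div_le_div_right (by omega)
      show (k - K) / r < K / r + 1
      omega
    · intro k hk l hl hkl
      rw [Finset.mem_coe, Finset.mem_filter, Finset.mem_Ico] at hk hl
      have h2 : k ≡ l [MOD r] := hk.2.trans hl.2.symm
      have h3 : k - K ≡ l - K [MOD r] := by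
        have h4 : (k - K) + K ≡ (l - K) + K [MOD r] := by
          rw [Nat.sub_add_cancel hk.1.1, Nat.sub_add_cancel hl.1.1]; exact h2
        exact Nat.ModEq.add_right_cancel' K h4
      have h5 : (k - K) / r = (l - K) / r := hkl
      have h6 := Nat.div_add_mod (k - K) r
      have h7 := Nat.div_add_mod (l - K) r
      have h8 : (k - K) % r = (l - K) % r := h3
      rw [h5, h8] at h6
      omega
  simpa using h1

theorem card_roots {b p L K : ℕ} (hp : p.Prime) (hpb : ¬ p ∣ b) (Q : Polynomial (ZMod p))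
    (hQ : Q ≠ 0) (hL : Q.natDegree ≤ L) :
    ((Finset.Ico K (2 * K)).filter (fun k => Q.eval ((b : ZMod p) ^ k) = 0)).card ≤
      L * (K / orderOf (b : ZMod p) + 1) := by
  classical
  haveI := Fact.mk hp
  have hb0 : (b : ZMod p) ≠ 0 := fun h => hpb ((ZMod.natCast_eq_zero_iff _ _).1 h)
  have hsub : (Finset.Ico K (2 * K)).filter (fun k => Q.eval ((b : ZMod p) ^ k) = 0) ⊆
      Q.roots.toFinset.biUnion (fun y => (Finset.Ico K (2 * K)).filter
        (fun k => (b : ZMod p) ^ k = y)) := by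
    intro k hk
    rw [Finset.mem_filter] at hk
    rw [Finset.mem_biUnion]
    exact ⟨(b : ZMod p) ^ k, by rw [Multiset.mem_toFinset, Polynomial.mem_roots hQ]; exact hk.2,
      Finset.mem_filter.2 ⟨hk.1, rfl⟩⟩
  refine (Finset.card_le_card hsub).trans ?_
  have hone : ∀ y ∈ Q.roots.toFinset, ((Finset.Ico K (2 * K)).filter
      (fun k => (b : ZMod p) ^ k = y)).card ≤ K / orderOf (b : ZMod p) + 1 := by
    intro y _
    rcases Finset.eq_empty_or_nonempty ((Finset.Ico K (2 * K)).filter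
      (fun k => (b : ZMod p) ^ k = y)) with h | ⟨v, hv⟩
    · rw [h]; simp
    · refine (Finset.card_le_card ?_).trans (card_modEq K (orderOf (b : ZMod p)) v (ord_pos hp hpb))
      intro k hk
      rw [Finset.mem_filter] at hk hv ⊢
      refine ⟨hk.1, ?_⟩
      have h1 : (b : ZMod p) ^ k = (b : ZMod p) ^ v := hk.2.trans hv.2.symm
      have h2 : (Units.mk0 (b : ZMod p) hb0) ^ k = (Units.mk0 (b : ZMod p) hb0) ^ v := by
        ext
        push_cast
        simpa using h1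
      have h3 := pow_eq_pow_iff_modEq.1 h2
      rw [← orderOf_units] at h3
      simpa using h3
  refine (Finset.card_biUnion_le_card_mul _ _ _ hone).trans ?_
  apply Nat.mul_le_mul_right
  exact (Multiset.toFinset_card_le _).trans ((Polynomial.card_roots' Q).trans hL)

end Pool.Agent.helper391_PT
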