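import Mathlib
import Pool.Agent.helper391_PT.Ord

set_option autoImplicit false

/-! Averages over the length of the words. -/

namespace Pool.Agent.helper391_PT

open Finset Filter

/-- the sum of the reciprocals of the prime factors of `D k` between `T` and `K` -/
noncomputable def sm (b : ℕ) (D : ℕ → ℤ) (K : ℕ) (T : ℝ) (k : ℕ) : ℝ := by
  classical
  exact ∑ p ∈ ((range (K + 1)).filter (fun p : ℕ => p.Prime ∧ ¬ p ∣ b ∧ T ≤ p)).filter
    (fun p : ℕ => (p : ℤ) ∣ D k), 1 / (p : ℝ)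

theorem sum_recip (K : ℕ) (S : Finset ℕ) (hS : S ⊆ range (K + 1)) :
    ∑ p ∈ S, 1 / (p : ℝ) ≤ 1 + Real.log K := by
  have h1 : ∑ p ∈ S, 1 / (p : ℝ) ≤ ∑ p ∈ range (K + 1), 1 / (p : ℝ) :=
    Finset.sum_le_sum_of_subset_of_nonneg hS (fun _ _ _ => by positivity)
  refine h1.trans ?_
  rw [Finset.sum_range_succ']
  have h2 := harmonic_le_one_add_log K
  have h3 : ((harmonic K : ℚ) : ℝ) = ∑ i ∈ range K, 1 / ((i + 1 : ℕ) : ℝ) := by
    rw [harmonic]
    push_cast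
    apply Finset.sum_congr rfl
    intro i _
    rw [one_div]
  rw [h3] at h2
  simpa using h2

theorem avg {b L K : ℕ} {D : ℕ → ℤ} {C t : ℝ} (hC : ∀ S : Finset ℕ,
    (∀ p ∈ S, p.Prime ∧ ¬ p ∣ b ∧ t ^ 8 ≤ p) →
      ∑ p ∈ S, 1 / ((p : ℝ) * orderOf (b : ZMod p)) ≤ C / t)
    (hD : ∀ p : ℕ, p.Prime → ¬ p ∣ b → ∀ S : Finset ℕ, (∀ k ∈ S, k ∈ Ico K (2 * K) ∧ (p : ℤ) ∣ D k) →
      S.card ≤ L * (K / orderOf (b : ZMod p) + 1)) :
    ∑ k ∈ Ico K (2 * K), sm b D K (t ^ 8) k ≤ L * (K * (C / t) + (1 + Real.log K)) := by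
  classical
  set P₀ := (range (K + 1)).filter (fun p : ℕ => p.Prime ∧ ¬ p ∣ b ∧ t ^ 8 ≤ p) with hP₀
  have h1 : ∑ k ∈ Ico K (2 * K), sm b D K (t ^ 8) k =
      ∑ p ∈ P₀, ∑ k ∈ Ico K (2 * K), if (p : ℤ) ∣ D k then 1 / (p : ℝ) else 0 := by
    rw [Finset.sum_comm]
    apply Finset.sum_congr rfl
    intro k _
    unfold sm
    rw [← Finset.sum_filter]
  rw [h1]
  have h2 : ∀ p ∈ P₀, (∑ k ∈ Ico K (2 * K), if (p : ℤ) ∣ D k then 1 / (p : ℝ) else 0) ≤
      L * (K * (1 / ((p : ℝ) * orderOf (b : ZMod p))) + 1 / (p : ℝ)) := by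
    intro p hp
    rw [hP₀, mem_filter] at hp
    obtain ⟨-, hp1, hp2, hp3⟩ := hp
    rw [← Finset.sum_filter, Finset.sum_const, nsmul_eq_mul]
    have h3 := hD p hp1 hp2 ((Ico K (2 * K)).filter (fun k => (p : ℤ) ∣ D k))
      (fun k hk => Finset.mem_filter.1 hk)
    have ho : (1 : ℝ) ≤ orderOf (b : ZMod p) := by exact_mod_cast ord_pos hp1 hp2
    have hp0 : (0 : ℝ) < p := by exact_mod_cast hp1.pos
    have h4 : (((Ico K (2 * K)).filter (fun k => (p : ℤ) ∣ D k)).card : ℝ) ≤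
        L * ((K : ℝ) / orderOf (b : ZMod p) + 1) := by
      have h5 : (((Ico K (2 * K)).filter (fun k => (p : ℤ) ∣ D k)).card : ℝ) ≤
          L * (((K / orderOf (b : ZMod p) : ℕ) : ℝ) + 1) := by exact_mod_cast h3
      refine h5.trans ?_
      gcongr
      exact Nat.cast_div_le
    calc (((Ico K (2 * K)).filter (fun k => (p : ℤ) ∣ D k)).card : ℝ) * (1 / (p : ℝ))
        ≤ (L * ((K : ℝ) / orderOf (b : ZMod p) + 1)) * (1 / (p : ℝ)) := by gcongr
      _ = _ := by field_simp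
  refine (Finset.sum_le_sum h2).trans ?_
  rw [← Finset.mul_sum, Finset.sum_add_distrib, ← Finset.mul_sum]
  gcongr
  · apply hC
    intro p hp
    rw [hP₀, mem_filter] at hp
    exact hp.2
  · exact sum_recip K P₀ (Finset.filter_subset _ _)

theorem sm_nonneg (b : ℕ) (D : ℕ → ℤ) (K : ℕ) (T : ℝ) (k : ℕ) : 0 ≤ sm b D K T k := by
  unfold sm
  exact Finset.sum_nonneg (fun _ _ => by positivity)

theorem markov (S : Finset ℕ) (g : ℕ → ℝ) (hg : ∀ k, 0 ≤ g k) (c B : ℝ)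
    (h : ∑ k ∈ S, g k ≤ c) : ((S.filter (fun k => B < g k)).card : ℝ) * B ≤ c := by
  classical
  refine le_trans ?_ h
  calc ((S.filter (fun k => B < g k)).card : ℝ) * B
      = ∑ k ∈ S.filter (fun k => B < g k), B := by rw [Finset.sum_const, nsmul_eq_mul]
    _ ≤ ∑ k ∈ S.filter (fun k => B < g k), g k :=
        Finset.sum_le_sum (fun k hk => (Finset.mem_filter.1 hk).2.le)
    _ ≤ ∑ k ∈ S, g k := Finset.sum_le_sum_of_subset_of_nonneg (Finset.filter_subset _ _)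
        (fun k _ _ => hg k)

theorem good (b L : ℕ) (hb : 2 ≤ b) (hL : 1 ≤ L) (η : ℝ) (hη : 0 < η) :
    ∃ B : ℝ, 0 < B ∧ ∃ K₀ : ℕ, ∀ K : ℕ, K₀ ≤ K → ∀ D : ℕ → ℤ,
      (∀ p : ℕ, p.Prime → ¬ p ∣ b → ∀ S : Finset ℕ, (∀ k ∈ S, k ∈ Ico K (2 * K) ∧ (p : ℤ) ∣ D k) →
        S.card ≤ L * (K / orderOf (b : ZMod p) + 1)) →
      ∃ G : Finset ℕ, G ⊆ Ico K (2 * K) ∧ (1 - η) * K ≤ G.card ∧ ∀ k ∈ G,
        sm b D K 1 k ≤ B ∧ sm b D K (Real.log K ^ 8) k ≤ B / Real.log K := by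
  classical
  obtain ⟨C, hC, hC'⟩ := sum_tail b hb
  have hLR : (1 : ℝ) ≤ L := by exact_mod_cast hL
  set B : ℝ := 2 * L * (C + 1) / η with hB
  have hB0 : 0 < B := by positivity
  have hlogK : Tendsto (fun k : ℕ => Real.log (k : ℝ)) atTop atTop :=
    Real.tendsto_log_atTop.comp tendsto_natCast_atTop_atTop
  have hsm : ∀ᶠ K : ℕ in atTop, Real.log (K : ℝ) ≤ 1 / 2 * (K : ℝ) ^ (1 / 2 : ℝ) := by
    have h1 := (isLittleO_log_rpow_atTop (show (0 : ℝ) < 1 / 2 by norm_num)).def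
      (show (0 : ℝ) < 1 / 2 by norm_num)
    have h2 := tendsto_natCast_atTop_atTop.eventually h1
    filter_upwards [h2, hlogK.eventually_ge_atTop 0, eventually_ge_atTop 1] with K a1 a2 a3
    have hK0 : (0 : ℝ) < K := by exact_mod_cast a3
    rw [Real.norm_eq_abs, abs_of_nonneg a2, Real.norm_eq_abs, abs_of_pos (by positivity)] at a1
    exact a1
  obtain ⟨K₀, hK₀⟩ := eventually_atTop.1 ((hsm.and (hlogK.eventually_ge_atTop 1)).and
    (eventually_ge_atTop 1))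
  refine ⟨B, hB0, K₀, fun K hK D hD => ?_⟩
  obtain ⟨⟨a1, a2⟩, a3⟩ := hK₀ K hK
  have hKR : (1 : ℝ) ≤ K := by exact_mod_cast a3
  have hK0 : (0 : ℝ) < K := by linarith
  set l := Real.log (K : ℝ) with hl
  have hl0 : 0 < l := by linarith
  have hll : (1 + l) * l ≤ K := by
    have h1 : ((K : ℝ) ^ (1 / 2 : ℝ)) ^ 2 = K := by
      rw [← Real.rpow_natCast, ← Real.rpow_mul hK0.le]; norm_num
    have h2 : 0 ≤ (K : ℝ) ^ (1 / 2 : ℝ) := by positivity
    nlinarith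
  have hl1 : 1 + l ≤ K := by nlinarith
  have e1 := avg (K := K) (hC' 1 le_rfl) hD
  have e2 := avg (K := K) (hC' l a2) hD
  rw [one_pow] at e1
  have f1 : ∑ k ∈ Ico K (2 * K), sm b D K 1 k ≤ L * (C + 1) * K := by
    refine e1.trans ?_
    rw [div_one]
    have : (L : ℝ) * (K * C + (1 + l)) ≤ L * (K * C + K) := by gcongr
    linarith
  have f2 : ∑ k ∈ Ico K (2 * K), sm b D K (l ^ 8) k ≤ L * (C + 1) * K / l := by
    refine e2.trans ?_
    have h3 : 1 + l ≤ K / l := by rw [le_div_iff₀ hl0]; exact hll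
    have : (L : ℝ) * (K * (C / l) + (1 + l)) ≤ L * (K * (C / l) + K / l) := by gcongr
    refine this.trans (le_of_eq ?_)
    ring
  have g1 := markov _ _ (sm_nonneg b D K 1) _ B f1
  have g2 := markov _ _ (sm_nonneg b D K (l ^ 8)) _ (B / l) f2
  set B₁ := (Ico K (2 * K)).filter (fun k => B < sm b D K 1 k) with hB₁
  set B₂ := (Ico K (2 * K)).filter (fun k => B / l < sm b D K (l ^ 8) k) with hB₂
  have i1 : (B₁.card : ℝ) ≤ η / 2 * K := by
    have h4 : (B₁.card : ℝ) * B ≤ (η / 2 * K) * B := by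
      have h5 : (η / 2 * K) * B = L * (C + 1) * K := by
        rw [hB]; field_simp
      rw [h5]; exact g1
    exact le_of_mul_le_mul_right h4 hB0
  have i2 : (B₂.card : ℝ) ≤ η / 2 * K := by
    have h4 : (B₂.card : ℝ) * (B / l) ≤ (η / 2 * K) * (B / l) := by
      have h5 : (η / 2 * K) * (B / l) = L * (C + 1) * K / l := by
        rw [hB]; field_simp
      rw [h5]; exact g2
    exact le_of_mul_le_mul_right h4 (by positivity)
  refine ⟨Ico K (2 * K) \ (B₁ ∪ B₂), sdiff_subset, ?_, ?_⟩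
  · have h1 := Finset.le_card_sdiff (B₁ ∪ B₂) (Ico K (2 * K))
    have h2 := Finset.card_union_le B₁ B₂
    rw [Nat.card_Ico] at h1
    have h3 : K ≤ (Ico K (2 * K) \ (B₁ ∪ B₂)).card + (B₁.card + B₂.card) := by omega
    have h4 : (K : ℝ) ≤ (Ico K (2 * K) \ (B₁ ∪ B₂)).card + (B₁.card + B₂.card) := by
      exact_mod_cast h3
    linarith
  · intro k hk
    rw [Finset.mem_sdiff, Finset.mem_union, not_or, hB₁, hB₂, Finset.mem_filter,
      Finset.mem_filter] at hk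
    obtain ⟨h1, h2, h3⟩ := hk
    constructor
    · by_contra hcon
      exact h2 ⟨h1, not_le.1 hcon⟩
    · by_contra hcon
      exact h3 ⟨h1, not_le.1 hcon⟩

end Pool.Agent.helper391_PT
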