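import Mathlib

set_option autoImplicit false

/-! Patterns for the expansions of integers. -/

namespace Pool.Agent.helper391_PT

/-- The symbols of a pattern: a digit in base `b`, the distinguished variable, the complement of the
distinguished variable, and further variables with the names `0, 1, 2, …`. -/
inductive Sym (b : ℕ) : Type
  | digit (c : Fin b) : Sym b
  | var : Sym b
  | comp : Sym b
  | other (j : ℕ) : Sym b

/-- The word which replaces a symbol, if the word `u` is substituted for the distinguished variable and
`v j` for the further variable `j`; the complement replaces each digit `c` of `u` by `b - 1 - c`. -/
def fill {b : ℕ} (u : List (Fin b)) (v : ℕ → List (Fin b)) : Sym b → List (Fin b)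
  | .digit c => [c]
  | .var => u
  | .comp => u.map Fin.rev
  | .other j => v j

/-- The word which is obtained from the pattern `w` by the substitution. -/
def subst {b : ℕ} (u : List (Fin b)) (v : ℕ → List (Fin b)) (w : List (Sym b)) : List (Fin b) :=
  w.flatMap (fill u v)

/-- The integer whose digits in base `b`, beginning with the digit of the units, are the letters of the
word `l`. -/
def value {b : ℕ} (l : List (Fin b)) : ℕ := Nat.ofDigits b (l.map Fin.val)

end Pool.Agent.helper391_PT
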