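import Mathlib
import Pool.Agent.helper391_PT.Defs

set_option autoImplicit false

/-! The integers of a pattern form an arithmetic progression. -/

namespace Pool.Agent.helper391_PT

open Polynomial

variable {b : ℕ}

theorem value_nil : value ([] : List (Fin b)) = 0 := rfl

theorem value_cons (c : Fin b) (l : List (Fin b)) : value (c :: l) = c + b * value l := by
  unfold value
  rw [List.map_cons, Nat.ofDigits_cons]

theorem value_append (l₁ l₂ : List (Fin b)) :
    value (l₁ ++ l₂) = value l₁ + b ^ l₁.length * value l₂ := by
  unfold value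
  rw [List.map_append, Nat.ofDigits_append, List.length_map]

theorem exists_word (hb : 2 ≤ b) : ∀ k U : ℕ, U < b ^ k → ∃ u : List (Fin b), u.length = k ∧
    value u = U
  | 0, U, h => ⟨[], rfl, by rw [value_nil]; rw [pow_zero] at h; omega⟩
  | k + 1, U, h => by
      have h1 : U / b < b ^ k := by
        rw [Nat.div_lt_iff_lt_mul (by omega), ← pow_succ]; exact h
      obtain ⟨u, hu1, hu2⟩ := exists_word hb k (U / b) h1
      refine ⟨⟨U % b, Nat.mod_lt _ (by omega)⟩ :: u, by rw [List.length_cons, hu1], ?_⟩
      rw [value_cons, hu2]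
      exact Nat.mod_add_div U b

theorem value_rev : ∀ u : List (Fin b), value (u.map Fin.rev) + value u + 1 = b ^ u.length
  | [] => by simp [value_nil]
  | c :: u => by
      have h := value_rev u
      rw [List.map_cons, value_cons, value_cons, List.length_cons, pow_succ, Fin.val_rev, ← h]
      have hc := c.2
      have e : b - (c + 1 : ℕ) + b * value (List.map Fin.rev u) + (c + b * value u) + 1 =
          (b - (c + 1 : ℕ) + (c + 1)) + b * value (List.map Fin.rev u) + b * value u := by ring
      rw [e, Nat.sub_add_cancel (by omega)]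
      ring

/-- the coefficient polynomial -/
noncomputable def pol : List (Sym b) → ℤ[X]
  | [] => 0
  | .digit _ :: w => C (b : ℤ) * pol w
  | .var :: w => 1 + X * pol w
  | .comp :: w => -1 + X * pol w
  | .other _ :: w => X * pol w

theorem natDegree_pol : ∀ w : List (Sym b), (pol w).natDegree ≤ w.length
  | [] => by simp [pol]
  | .digit _ :: w => by
      have h := natDegree_pol w
      rw [pol, List.length_cons]
      exact (natDegree_C_mul_le _ _).trans (by omega)
  | .var :: w => by
      have h := natDegree_pol w
      rw [pol, List.length_cons]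
      refine (natDegree_add_le _ _).trans (max_le (by simp) ?_)
      refine natDegree_mul_le.trans ?_
      rw [natDegree_X]; omega
  | .comp :: w => by
      have h := natDegree_pol w
      rw [pol, List.length_cons]
      refine (natDegree_add_le _ _).trans (max_le (by simp) ?_)
      refine natDegree_mul_le.trans ?_
      rw [natDegree_X]; omega
  | .other _ :: w => by
      have h := natDegree_pol w
      rw [pol, List.length_cons]
      refine natDegree_mul_le.trans ?_
      rw [natDegree_X]; omega

theorem map_pol_ne {R : Type} [CommRing R] [IsDomain R] (hbR : (b : R) ≠ 0) :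
    ∀ w : List (Sym b), (Sym.var ∈ w ∨ Sym.comp ∈ w) → (pol w).map (Int.castRingHom R) ≠ 0
  | [], h => by simp at h
  | .digit _ :: w, h => by
      have h' : Sym.var ∈ w ∨ Sym.comp ∈ w := by simpa using h
      have ih := map_pol_ne hbR w h'
      rw [pol, Polynomial.map_mul, Polynomial.map_C]
      refine mul_ne_zero ?_ ih
      rw [Ne, C_eq_zero]
      simpa using hbR
  | .var :: w, _ => by
      intro h0
      have h1 := congrArg (fun q => q.coeff 0) h0
      simp [pol] at h1
  | .comp :: w, _ => by
      intro h0
      have h1 := congrArg (fun q => q.coeff 0) h0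
      simp [pol] at h1
  | .other _ :: w, h => by
      have h' : Sym.var ∈ w ∨ Sym.comp ∈ w := by simpa using h
      have ih := map_pol_ne hbR w h'
      rw [pol, Polynomial.map_mul, Polynomial.map_X]
      exact mul_ne_zero X_ne_zero ih

theorem eval_pol_ne (hb : 2 ≤ b) {k : ℕ} (hk : 1 ≤ k) :
    ∀ w : List (Sym b), (Sym.var ∈ w ∨ Sym.comp ∈ w) → (pol w).eval ((b : ℤ) ^ k) ≠ 0
  | [], h => by simp at h
  | .digit _ :: w, h => by
      have h' : Sym.var ∈ w ∨ Sym.comp ∈ w := by simpa using h
      have ih := eval_pol_ne hb hk w h'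
      rw [pol, eval_mul, eval_C]
      exact mul_ne_zero (by exact_mod_cast (by omega : b ≠ 0)) ih
  | .var :: w, _ => by
      intro h0
      rw [pol, eval_add, eval_one, eval_mul, eval_X] at h0
      have h1 : ((b : ℤ) ^ k) ∣ 1 := ⟨-eval ((b : ℤ) ^ k) (pol w), by linarith⟩
      have h2 : b ^ k ∣ 1 := by exact_mod_cast h1
      have h3 : 2 ^ 1 ≤ b ^ k := (Nat.pow_le_pow_left hb 1).trans (Nat.pow_le_pow_right (by omega) hk)
      have := Nat.le_of_dvd one_pos h2
      omega
  | .comp :: w, _ => by
      intro h0
      rw [pol, eval_add, eval_neg, eval_one, eval_mul, eval_X] at h0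
      have h1 : ((b : ℤ) ^ k) ∣ 1 := ⟨eval ((b : ℤ) ^ k) (pol w), by linarith⟩
      have h2 : b ^ k ∣ 1 := by exact_mod_cast h1
      have h3 : 2 ^ 1 ≤ b ^ k := (Nat.pow_le_pow_left hb 1).trans (Nat.pow_le_pow_right (by omega) hk)
      have := Nat.le_of_dvd one_pos h2
      omega
  | .other _ :: w, h => by
      have h' : Sym.var ∈ w ∨ Sym.comp ∈ w := by simpa using h
      have ih := eval_pol_ne hb hk w h'
      rw [pol, eval_mul, eval_X]
      exact mul_ne_zero (pow_ne_zero _ (by exact_mod_cast (by omega : b ≠ 0))) ih

/-- the length of the words of a pattern -/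
def len (k : ℕ) : List (Sym b) → ℕ
  | [] => 0
  | .digit _ :: w => 1 + len k w
  | .var :: w => k + len k w
  | .comp :: w => k + len k w
  | .other _ :: w => k + len k w

theorem subst_cons (u : List (Fin b)) (v : ℕ → List (Fin b)) (s : Sym b) (w : List (Sym b)) :
    subst u v (s :: w) = fill u v s ++ subst u v w := by
  unfold subst
  rw [List.flatMap_cons]

theorem length_subst {k : ℕ} {u : List (Fin b)} {v : ℕ → List (Fin b)} (hu : u.length = k)
    (hv : ∀ j, (v j).length = k) : ∀ w : List (Sym b), (subst u v w).length = len k w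
  | [] => rfl
  | .digit _ :: w => by
      rw [subst_cons, List.length_append, length_subst hu hv w, len]; rfl
  | .var :: w => by
      rw [subst_cons, List.length_append, length_subst hu hv w, len, fill, hu]
  | .comp :: w => by
      rw [subst_cons, List.length_append, length_subst hu hv w, len, fill, List.length_map, hu]
  | .other j :: w => by
      rw [subst_cons, List.length_append, length_subst hu hv w, len, fill, hv j]

theorem len_le {k : ℕ} (hk : 1 ≤ k) : ∀ w : List (Sym b), len k w ≤ k * w.length
  | [] => by simp [len]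
  | .digit _ :: w => by
      have := len_le hk w
      rw [len, List.length_cons, mul_add]; omega
  | .var :: w => by
      have := len_le hk w
      rw [len, List.length_cons, mul_add]; omega
  | .comp :: w => by
      have := len_le hk w
      rw [len, List.length_cons, mul_add]; omega
  | .other _ :: w => by
      have := len_le hk w
      rw [len, List.length_cons, mul_add]; omega

theorem le_len {k : ℕ} : ∀ w : List (Sym b), (Sym.var ∈ w ∨ Sym.comp ∈ w) → k ≤ len k w
  | [], h => by simp at h
  | .digit _ :: w, h => by
      have h' : Sym.var ∈ w ∨ Sym.comp ∈ w := by simpa using h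
      have := le_len (k := k) w h'
      rw [len]; omega
  | .var :: w, _ => by rw [len]; omega
  | .comp :: w, _ => by rw [len]; omega
  | .other _ :: w, _ => by rw [len]; omega

theorem abs_eval_pol (hb : 2 ≤ b) {k : ℕ} (hk : 1 ≤ k) :
    ∀ w : List (Sym b), |(pol w).eval ((b : ℤ) ^ k)| * ((b : ℤ) ^ k - 1) ≤ (b : ℤ) ^ (len k w) - 1
  | [] => by simp [pol, len]
  | .digit _ :: w => by
      have ih := abs_eval_pol hb hk w
      have hbZ : (2 : ℤ) ≤ b := by exact_mod_cast hb
      rw [pol, eval_mul, eval_C, abs_mul, abs_of_nonneg (by linarith : (0 : ℤ) ≤ b), len, pow_add,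
        pow_one]
      nlinarith
  | .var :: w => by
      have ih := abs_eval_pol hb hk w
      have hbZ : (2 : ℤ) ≤ b := by exact_mod_cast hb
      have hy : (1 : ℤ) ≤ (b : ℤ) ^ k := one_le_pow₀ (by linarith)
      rw [pol, eval_add, eval_one, eval_mul, eval_X, len, pow_add]
      have h1 : |1 + (b : ℤ) ^ k * eval ((b : ℤ) ^ k) (pol w)| ≤
          1 + (b : ℤ) ^ k * |eval ((b : ℤ) ^ k) (pol w)| := by
        refine (abs_add_le _ _).trans ?_
        rw [abs_one, abs_mul, abs_of_nonneg (by linarith : (0 : ℤ) ≤ (b : ℤ) ^ k)]
      nlinarith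
  | .comp :: w => by
      have ih := abs_eval_pol hb hk w
      have hbZ : (2 : ℤ) ≤ b := by exact_mod_cast hb
      have hy : (1 : ℤ) ≤ (b : ℤ) ^ k := one_le_pow₀ (by linarith)
      rw [pol, eval_add, eval_neg, eval_one, eval_mul, eval_X, len, pow_add]
      have h1 : |-1 + (b : ℤ) ^ k * eval ((b : ℤ) ^ k) (pol w)| ≤
          1 + (b : ℤ) ^ k * |eval ((b : ℤ) ^ k) (pol w)| := by
        refine (abs_add_le _ _).trans ?_
        rw [abs_neg, abs_one, abs_mul, abs_of_nonneg (by linarith : (0 : ℤ) ≤ (b : ℤ) ^ k)]
      nlinarith
  | .other _ :: w => by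
      have ih := abs_eval_pol hb hk w
      have hbZ : (2 : ℤ) ≤ b := by exact_mod_cast hb
      have hy : (1 : ℤ) ≤ (b : ℤ) ^ k := one_le_pow₀ (by linarith)
      rw [pol, eval_mul, eval_X, abs_mul, abs_of_nonneg (by linarith : (0 : ℤ) ≤ (b : ℤ) ^ k), len,
        pow_add]
      nlinarith

theorem value_subst (hb : 2 ≤ b) {k : ℕ} {u₀ u : List (Fin b)} {v : ℕ → List (Fin b)}
    (hu₀ : u₀.length = k) (hu₀' : value u₀ = 0) (hu : u.length = k) (hv : ∀ j, (v j).length = k) :
    ∀ w : List (Sym b), (value (subst u v w) : ℤ) =
      value (subst u₀ v w) + (pol w).eval ((b : ℤ) ^ k) * value u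
  | [] => by simp [pol, subst]
  | .digit c :: w => by
      have ih := value_subst hb hu₀ hu₀' hu hv w
      rw [subst_cons, subst_cons, value_append, value_append, pol, eval_mul, eval_C]
      push_cast
      rw [ih]
      simp only [fill, List.length_singleton, pow_one]
      ring
  | .var :: w => by
      have ih := value_subst hb hu₀ hu₀' hu hv w
      rw [subst_cons, subst_cons, value_append, value_append, pol, eval_add, eval_one, eval_mul,
        eval_X]
      push_cast
      rw [ih]
      simp only [fill, hu₀, hu, hu₀']
      push_cast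
      ring
  | .comp :: w => by
      have ih := value_subst hb hu₀ hu₀' hu hv w
      rw [subst_cons, subst_cons, value_append, value_append, pol, eval_add, eval_neg, eval_one,
        eval_mul, eval_X]
      push_cast
      rw [ih]
      simp only [fill, List.length_map, hu₀, hu]
      have h1 := value_rev u
      have h2 := value_rev u₀
      rw [hu₀', add_zero, hu₀] at h2
      rw [hu] at h1
      have h1' : (value (u.map Fin.rev) : ℤ) + value u + 1 = (b : ℤ) ^ k := by exact_mod_cast h1
      have h2' : (value (u₀.map Fin.rev) : ℤ) + 1 = (b : ℤ) ^ k := by exact_mod_cast h2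
      have h3 : (value (u.map Fin.rev) : ℤ) = (b : ℤ) ^ k - 1 - value u := by linarith
      have h4 : (value (u₀.map Fin.rev) : ℤ) = (b : ℤ) ^ k - 1 := by linarith
      rw [h3, h4]
      ring
  | .other j :: w => by
      have ih := value_subst hb hu₀ hu₀' hu hv w
      rw [subst_cons, subst_cons, value_append, value_append, pol, eval_mul, eval_X]
      push_cast
      rw [ih]
      simp only [fill, hv j]
      ring

end Pool.Agent.helper391_PT
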