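import Mathlib
import Pool.Agent.Results.MP_3bc45c_nt.RecordGapsAtPrescribedPlaces
import Pool.Agent.helper391_DG.Ana
import Pool.Agent.helper391_PT.Pat
import Pool.Agent.helper391_PT.Avg

set_option autoImplicit false

/-! Patterns in the expansions of integers in the middle of record gaps. -/

namespace Pool.Agent.helper391_PT

open Finset Filter
open Pool.Agent.helper391_DG

theorem tot_exp (d : ℕ) (hd : d ≠ 0) :
    Real.exp (-2 * ∑ p ∈ d.primeFactors, 1 / (p : ℝ)) ≤ (Nat.totient d : ℝ) / d := by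
  have h1 := Nat.totient_eq_mul_prod_factors d
  have h2 : ((Nat.totient d : ℚ) : ℝ) = ((d * ∏ p ∈ d.primeFactors, (1 - (p : ℚ)⁻¹) : ℚ) : ℝ) := by
    rw [h1]
  push_cast at h2
  rw [h2, mul_div_cancel_left₀ _ (by exact_mod_cast hd), Finset.mul_sum, Real.exp_sum]
  apply Finset.prod_le_prod
  · intro p _; positivity
  · intro p hp
    have hp2 : (2 : ℝ) ≤ p := by exact_mod_cast (Nat.prime_of_mem_primeFactors hp).two_le
    set t : ℝ := (p : ℝ)⁻¹ with ht
    have ht0 : 0 < t := by positivity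
    have ht2 : t ≤ 1 / 2 := by
      rw [ht, ← one_div]
      exact one_div_le_one_div_of_le (by norm_num) hp2
    have h3 : -2 * (1 / (p : ℝ)) = -(2 * t) := by rw [ht]; ring
    rw [h3, Real.exp_neg]
    have h4 := Real.add_one_le_exp (2 * t)
    rw [inv_le_iff_one_le_mul₀ (by positivity)]
    nlinarith

theorem large (d K : ℕ) (hd : d ≠ 0) (hK : 2 ≤ K) :
    ∑ p ∈ d.primeFactors.filter (fun p => K < p), 1 / (p : ℝ) ≤ Real.log d / (K * Real.log K) := by
  classical
  set S := d.primeFactors.filter (fun p => K < p) with hS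
  have hKR : (2 : ℝ) ≤ K := by exact_mod_cast hK
  have hlK : 0 < Real.log K := Real.log_pos (by linarith)
  have h1 : ∏ p ∈ S, p ∣ d :=
    (Finset.prod_dvd_prod_of_subset _ _ _ (Finset.filter_subset _ _)).trans
      (Nat.prod_primeFactors_dvd d)
  have h2 : K ^ S.card ≤ d := by
    refine le_trans ?_ (Nat.le_of_dvd (Nat.pos_of_ne_zero hd) h1)
    rw [← Finset.prod_const]
    exact Finset.prod_le_prod' (fun p hp => (Finset.mem_filter.1 hp).2.le)
  have h3 : (S.card : ℝ) * Real.log K ≤ Real.log d := by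
    rw [← Real.log_pow]
    apply Real.log_le_log (by positivity)
    exact_mod_cast h2
  calc ∑ p ∈ S, 1 / (p : ℝ) ≤ ∑ p ∈ S, 1 / (K : ℝ) := by
        apply Finset.sum_le_sum
        intro p hp
        have h4 : (K : ℝ) ≤ p := by exact_mod_cast (Finset.mem_filter.1 hp).2.le
        exact one_div_le_one_div_of_le (by linarith) h4
    _ = S.card / K := by rw [Finset.sum_const, nsmul_eq_mul, mul_one_div]
    _ ≤ Real.log d / (K * Real.log K) := by
        rw [div_le_div_iff₀ (by linarith) (by positivity)]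
        nlinarith

theorem sum_union_le (S₁ S₂ : Finset ℕ) : ∑ p ∈ S₁ ∪ S₂, 1 / (p : ℝ) ≤
    ∑ p ∈ S₁, 1 / (p : ℝ) + ∑ p ∈ S₂, 1 / (p : ℝ) := by
  rw [← Finset.sum_union_inter]
  exact le_add_of_nonneg_right (Finset.sum_nonneg (fun _ _ => by positivity))

/-- splitting the prime factors above a threshold -/
theorem split_thr {b K k d : ℕ} {D : ℕ → ℤ} {T thr : ℝ} (hb : 2 ≤ b)
    (hdvd : ∀ p : ℕ, p ∣ d → (p : ℤ) ∣ D k) (hT : T ≤ thr) (hthr : (b : ℝ) ≤ thr) :
    (∑ p ∈ d.primeFactors with thr < ((p : ℕ) : ℝ), 1 / ((p : ℕ) : ℝ)) ≤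
      sm b D K T k + ∑ p ∈ d.primeFactors.filter (fun p => K < p), 1 / (p : ℝ) := by
  classical
  unfold sm
  refine le_trans ?_ (sum_union_le _ _)
  apply Finset.sum_le_sum_of_subset_of_nonneg
  · intro p hp
    rw [Finset.mem_filter, Nat.mem_primeFactors] at hp
    obtain ⟨⟨hp1, hp2, hp3⟩, hp4⟩ := hp
    rw [Finset.mem_union, Finset.mem_filter, Finset.mem_filter, Finset.mem_filter,
      Nat.mem_primeFactors, Finset.mem_range]
    rcases Nat.lt_or_ge K p with h | h
    · exact Or.inr ⟨⟨hp1, hp2, hp3⟩, h⟩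
    · refine Or.inl ⟨⟨by omega, hp1, ?_, by linarith⟩, hdvd p hp2⟩
      intro hpb
      have : p ≤ b := Nat.le_of_dvd (by omega) hpb
      have : (p : ℝ) ≤ b := by exact_mod_cast this
      linarith
  · intro p _ _; positivity

/-- splitting all the prime factors -/
theorem split_all {b K k d : ℕ} {D : ℕ → ℤ} (hb : 2 ≤ b)
    (hdvd : ∀ p : ℕ, p ∣ d → (p : ℤ) ∣ D k) :
    ∑ p ∈ d.primeFactors, 1 / (p : ℝ) ≤ (sm b D K 1 k + (b + 1)) +
      ∑ p ∈ d.primeFactors.filter (fun p => K < p), 1 / (p : ℝ) := by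
  classical
  have h2 : (∑ p ∈ d.primeFactors.filter (fun p => p ∣ b), 1 / (p : ℝ)) ≤ b + 1 := by
    calc (∑ p ∈ d.primeFactors.filter (fun p => p ∣ b), 1 / (p : ℝ))
        ≤ ∑ p ∈ range (b + 1), (1 : ℝ) := by
          refine (Finset.sum_le_sum (fun p hp => ?_)).trans
            (Finset.sum_le_sum_of_subset_of_nonneg (f := fun _ => (1 : ℝ)) ?_
              (fun _ _ _ => by norm_num))
          · have h3 := Nat.prime_of_mem_primeFactors (Finset.mem_filter.1 hp).1
            have h4 : (1 : ℝ) ≤ p := by exact_mod_cast h3.one_lt.le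
            rw [div_le_one (by linarith)]
            exact h4
          · intro p hp
            have h3 := Nat.le_of_dvd (by omega) (Finset.mem_filter.1 hp).2
            rw [Finset.mem_range]; omega
      _ = b + 1 := by
          rw [Finset.sum_const, Finset.card_range]; push_cast; ring
  have h3 : ∑ p ∈ d.primeFactors, 1 / (p : ℝ) ≤
      ∑ p ∈ (((range (K + 1)).filter (fun p : ℕ => p.Prime ∧ ¬ p ∣ b ∧ (1 : ℝ) ≤ p)).filter
        (fun p : ℕ => (p : ℤ) ∣ D k) ∪ d.primeFactors.filter (fun p => p ∣ b)) ∪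
          d.primeFactors.filter (fun p => K < p), 1 / (p : ℝ) := by
    apply Finset.sum_le_sum_of_subset_of_nonneg
    · intro p hp
      have hp0 := hp
      rw [Nat.mem_primeFactors] at hp
      obtain ⟨hp1, hp2, hp3⟩ := hp
      rw [Finset.mem_union, Finset.mem_union]
      rcases Nat.lt_or_ge K p with h | h
      · exact Or.inr (Finset.mem_filter.2 ⟨hp0, h⟩)
      · by_cases hpb : p ∣ b
        · exact Or.inl (Or.inr (Finset.mem_filter.2 ⟨hp0, hpb⟩))
        · refine Or.inl (Or.inl (Finset.mem_filter.2 ⟨Finset.mem_filter.2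
            ⟨Finset.mem_range.2 (by omega), hp1, hpb, ?_⟩, hdvd p hp2⟩))
          exact_mod_cast hp1.one_lt.le
    · intro p _ _; positivity
  have h4 := sum_union_le (((range (K + 1)).filter (fun p : ℕ => p.Prime ∧ ¬ p ∣ b ∧
    (1 : ℝ) ≤ p)).filter (fun p : ℕ => (p : ℤ) ∣ D k) ∪ d.primeFactors.filter (fun p => p ∣ b))
      (d.primeFactors.filter (fun p => K < p))
  have h5 := sum_union_le (((range (K + 1)).filter (fun p : ℕ => p.Prime ∧ ¬ p ∣ b ∧
    (1 : ℝ) ≤ p)).filter (fun p : ℕ => (p : ℤ) ∣ D k)) (d.primeFactors.filter (fun p => p ∣ b))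
  unfold sm
  linarith

theorem thr_pow : ∀ᶠ x : ℝ in atTop,
    (2 * Real.log (Real.log x)) ^ 8 ≤ Real.exp (Real.log (Real.log x) *
      Real.log (Real.log (Real.log (Real.log x))) / (20 * Real.log (Real.log (Real.log x)))) := by
  have hlog := Real.tendsto_log_atTop
  have hll : Tendsto (fun l : ℝ => Real.log (Real.log l)) atTop atTop := hlog.comp hlog
  have key : ∀ᶠ s : ℝ in atTop, (2 * s) ^ 8 ≤
      Real.exp (s * Real.log (Real.log s) / (20 * Real.log s)) := by
    have h1 := (isLittleO_log_rpow_atTop (show (0 : ℝ) < 1 / 2 by norm_num)).def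
      (show (0 : ℝ) < 1 / 20 by norm_num)
    have h2 := (Real.isLittleO_pow_exp_atTop (n := 16)).def (show (0 : ℝ) < 1 / 256 by norm_num)
    have h3 := (tendsto_rpow_atTop (show (0 : ℝ) < 1 / 2 by norm_num)).eventually h2
    filter_upwards [h1, h3, hlog.eventually_ge_atTop 1, hll.eventually_ge_atTop 1,
      eventually_ge_atTop 1] with s a1 a2 a3 a4 a5
    have hs0 : 0 < s := by linarith
    set r : ℝ := s ^ (1 / 2 : ℝ) with hr
    have hr0 : 0 < r := by positivity
    have hr2 : r ^ 2 = s := by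
      rw [hr, ← Real.rpow_natCast, ← Real.rpow_mul hs0.le]; norm_num
    rw [Real.norm_eq_abs, abs_of_nonneg (by linarith), Real.norm_eq_abs, abs_of_pos hr0] at a1
    rw [Real.norm_eq_abs, abs_of_pos (by positivity), Real.norm_eq_abs,
      abs_of_pos (Real.exp_pos _)] at a2
    have hls : 0 < Real.log s := by linarith
    have h4 : r ≤ s * Real.log (Real.log s) / (20 * Real.log s) := by
      rw [le_div_iff₀ (by positivity), ← hr2]
      calc r * (20 * Real.log (r ^ 2)) = r * (20 * Real.log s) := by rw [hr2]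
        _ ≤ r * r := by
            apply mul_le_mul_of_nonneg_left _ hr0.le
            linarith
        _ = r ^ 2 * 1 := by ring
        _ ≤ r ^ 2 * Real.log (Real.log (r ^ 2)) := by
            rw [hr2]
            exact mul_le_mul_of_nonneg_left a4 hs0.le
    calc (2 * s) ^ 8 = 256 * r ^ 16 := by rw [← hr2]; ring
      _ ≤ Real.exp r := by linarith
      _ ≤ _ := Real.exp_le_exp.2 h4
  exact hll.eventually key

theorem main {b : ℕ} (hb : 2 ≤ b) (w : List (Sym b)) (hw : Sym.var ∈ w ∨ Sym.comp ∈ w) (η : ℝ)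
    (hη : 0 < η) :
    ∃ κ : ℝ, 0 < κ ∧ ∃ K₀ : ℕ, ∀ K : ℕ, K₀ ≤ K → ∃ G : Finset ℕ, G ⊆ Ico K (2 * K) ∧
      (1 - η) * K ≤ G.card ∧ ∀ k ∈ G, ∀ v : ℕ → List (Fin b), (∀ j, (v j).length = k) →
        ∃ u : List (Fin b), u.length = k ∧ ∀ p : ℕ, p.Prime →
          κ * F (Real.log ((b : ℝ) ^ (subst u v w).length)) < |(p : ℝ) - value (subst u v w)| := by
  classical
  have hbR : (2 : ℝ) ≤ b := by exact_mod_cast hb
  have hlb : 0 < Real.log b := Real.log_pos (by linarith)
  have hlb2 : 1 / 2 ≤ Real.log b := by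
    have h1 := Real.log_two_gt_d9
    have h2 := Real.log_le_log (by norm_num) hbR
    linarith
  set L := w.length with hL
  have hL1 : 1 ≤ L := by
    rw [hL]
    rcases w with _ | ⟨s, w⟩
    · simp at hw
    · simp
  have hLR : (1 : ℝ) ≤ L := by exact_mod_cast hL1
  obtain ⟨B, hB, K₁, hgood⟩ := good b L hb hL1 η hη
  set A : ℝ := 2 * (B + 2 * L * Real.log b) with hA
  have hA0 : 0 ≤ A := by positivity
  set E : ℝ := B + (b + 1) + 2 * L * Real.log b with hE
  set δ : ℝ := 1 / (4 * L) with hδ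
  have hδ0 : 0 < δ := by positivity
  have hδ1 : δ < 1 := by
    rw [hδ, div_lt_one (by positivity)]; linarith
  obtain ⟨c, hc, x₀, hbb⟩ := Pool.Agent.Results.MP_3bc45c_nt.RecordGapsAtPrescribedPlaces.result
    δ A hδ0 hδ1 hA0
  obtain ⟨R, hR⟩ := F_scale (1 / (2 * L)) (by positivity)
  obtain ⟨X₁, hX₁⟩ := eventually_atTop.1 (((eventually_ge_atTop x₀).and (thr_large (b : ℝ))).and
    thr_pow)
  have hlogK : Tendsto (fun k : ℕ => Real.log (k : ℝ)) atTop atTop :=
    Real.tendsto_log_atTop.comp tendsto_natCast_atTop_atTop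
  have hcast : Tendsto (fun k : ℕ => (k : ℝ)) atTop atTop := tendsto_natCast_atTop_atTop
  obtain ⟨K₂, hK₂⟩ := eventually_atTop.1 (((((hcast.eventually_ge_atTop X₁).and
    (hlogK.eventually_ge_atTop 1)).and (hcast.eventually_ge_atTop (2 * L * Real.log b))).and
      (hcast.eventually_ge_atTop (R / Real.log b))).and (eventually_ge_atTop 16))
  refine ⟨c * (Real.exp (-2 * E) * (1 / (2 * L) / 8)), by positivity, max K₁ K₂, fun K hK => ?_⟩
  obtain ⟨⟨⟨⟨a1, a2⟩, a3⟩, a4⟩, a5⟩ := hK₂ K ((le_max_right _ _).trans hK)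
  have hK16 : (16 : ℝ) ≤ K := by exact_mod_cast a5
  obtain ⟨G, hG1, hG2, hG3⟩ := hgood K ((le_max_left _ _).trans hK)
    (fun k => (pol w).eval ((b : ℤ) ^ k)) (by
      intro p hp hpb S hS
      haveI := Fact.mk hp
      have hb0 : (b : ZMod p) ≠ 0 := fun h => hpb ((ZMod.natCast_eq_zero_iff _ _).1 h)
      refine (Finset.card_le_card ?_).trans (card_roots (K := K) hp hpb
        ((pol w).map (Int.castRingHom (ZMod p))) (map_pol_ne hb0 w hw)
        (Polynomial.natDegree_map_le.trans (natDegree_pol w)))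
      intro k hk
      obtain ⟨h1, h2⟩ := hS k hk
      rw [Finset.mem_filter]
      refine ⟨h1, ?_⟩
      have h3 : (((pol w).eval ((b : ℤ) ^ k) : ℤ) : ZMod p) = 0 :=
        (ZMod.intCast_zmod_eq_zero_iff_dvd _ _).2 h2
      rw [Polynomial.eval_map, ← h3]
      have h4 := Polynomial.eval₂_at_apply (Int.castRingHom (ZMod p)) ((b : ℤ) ^ k) (p := pol w)
      simpa using h4)
  refine ⟨G, hG1, hG2, fun k hk v hv => ?_⟩
  obtain ⟨hg1, hg2⟩ := hG3 k hk
  obtain ⟨hkK, hkK2⟩ := Finset.mem_Ico.1 (hG1 hk)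
  have hk1 : 1 ≤ k := by omega
  have hkR : (16 : ℝ) ≤ k := by
    have : 16 ≤ k := by omega
    exact_mod_cast this
  have hkKR : (K : ℝ) ≤ k := by exact_mod_cast hkK
  have hkKR2 : (k : ℝ) ≤ 2 * K := by exact_mod_cast hkK2.le
  set D : ℤ := (pol w).eval ((b : ℤ) ^ k) with hD
  have hD0 : D ≠ 0 := eval_pol_ne hb hk1 w hw
  set d := D.natAbs with hd
  have hd0 : d ≠ 0 := Int.natAbs_ne_zero.2 hD0
  have hd1 : 1 ≤ d := Nat.pos_of_ne_zero hd0
  set N := len k w with hN
  have hN1 : N ≤ k * L := len_le hk1 w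
  have hN2 : k ≤ N := le_len w hw
  obtain ⟨y, hy⟩ : ∃ y : ℕ, b ^ k = y + 1 := ⟨b ^ k - 1, by
    have := Nat.one_le_pow k b (by omega); omega⟩
  have hdy : d * y ≤ b ^ N := by
    have h1 := abs_eval_pol hb hk1 w
    rw [← hD] at h1
    have h2 : ((d : ℕ) : ℤ) = |D| := Int.natCast_natAbs D
    have h3 : ((b : ℤ) ^ k) - 1 = (y : ℤ) := by
      have : ((b : ℤ) ^ k) = (y : ℤ) + 1 := by exact_mod_cast hy
      rw [this]; ring
    rw [← h2, h3] at h1
    have h4 : ((d * y : ℕ) : ℤ) ≤ ((b ^ N : ℕ) : ℤ) := by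
      push_cast; linarith
    exact_mod_cast h4
  have hyb : b ^ (k - 1) ≤ y := by
    have h1 : b ^ k = b * b ^ (k - 1) := by
      rw [← pow_succ']; congr 1; omega
    have h2 : 2 * b ^ (k - 1) ≤ b * b ^ (k - 1) := Nat.mul_le_mul_right _ hb
    have h3 : 1 ≤ b ^ (k - 1) := Nat.one_le_pow _ _ (by omega)
    omega
  have hybR : (b : ℝ) ^ (k - 1) ≤ y := by exact_mod_cast hyb
  have hky : k ≤ y := by
    refine le_trans ?_ hyb
    have h1 : k - 1 < b ^ (k - 1) := Nat.lt_pow_self (by omega)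
    omega
  have hkyR : (k : ℝ) ≤ y := by exact_mod_cast hky
  set x : ℝ := ((d * y : ℕ) : ℝ) with hx
  have hdR1 : (1 : ℝ) ≤ d := by exact_mod_cast hd1
  have hyx : (y : ℝ) ≤ x := by
    rw [hx]; push_cast
    nlinarith
  have hx1 : (1 : ℝ) ≤ x := by linarith
  have hx0 : 0 < x := by linarith
  have hxN : x ≤ (b : ℝ) ^ N := by rw [hx]; exact_mod_cast hdy
  obtain ⟨⟨t1, t2⟩, t3⟩ := hX₁ x (by linarith)
  set thr : ℝ := Real.exp (Real.log (Real.log x) *
      Real.log (Real.log (Real.log (Real.log x))) / (20 * Real.log (Real.log (Real.log x)))) with hthr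
  -- logarithms
  have hlxN : Real.log x ≤ N * Real.log b := by
    rw [← Real.log_pow]; exact Real.log_le_log hx0 hxN
  have hlxk : k / 2 * Real.log b ≤ Real.log x := by
    have h1 : Real.log ((b : ℝ) ^ (k - 1)) ≤ Real.log x :=
      Real.log_le_log (by positivity) (hybR.trans hyx)
    rw [Real.log_pow, Nat.cast_sub hk1, Nat.cast_one] at h1
    refine le_trans ?_ h1
    apply mul_le_mul_of_nonneg_right _ hlb.le
    linarith
  have hNR : (N : ℝ) ≤ k * L := by exact_mod_cast hN1
  have hlx2 : Real.log x ≤ 2 * L * Real.log b * K := by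
    refine hlxN.trans ?_
    calc (N : ℝ) * Real.log b ≤ (k * L) * Real.log b := by gcongr
      _ ≤ (2 * K * L) * Real.log b := by gcongr
      _ = _ := by ring
  have hlx4 : (K : ℝ) / 4 ≤ Real.log x := by
    refine le_trans ?_ hlxk
    nlinarith
  have hlx0 : 0 < Real.log x := by linarith
  have hllx1 : Real.log K ≤ 2 * Real.log (Real.log x) := by
    have h1 : Real.log K ≤ Real.log ((Real.log x) ^ 2) := by
      apply Real.log_le_log (by linarith)
      refine le_trans ?_ (pow_le_pow_left₀ (by positivity) hlx4 2)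
      calc (K : ℝ) = K * 16 / 16 := by ring
        _ ≤ K * K / 16 := by gcongr
        _ = (K / 4) ^ 2 := by ring
    rw [Real.log_pow] at h1
    exact_mod_cast h1
  have hllx2 : Real.log (Real.log x) ≤ 2 * Real.log K := by
    have h1 : Real.log (Real.log x) ≤ Real.log ((K : ℝ) ^ 2) := by
      apply Real.log_le_log hlx0
      refine hlx2.trans ?_
      rw [pow_two]
      gcongr
    rw [Real.log_pow] at h1
    exact_mod_cast h1
  have hllx0 : 0 < Real.log (Real.log x) := by linarith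
  have hthr2 : Real.log K ^ 8 ≤ thr := (pow_le_pow_left₀ (by linarith) hllx1 8).trans t3
  -- the large primes
  have hlarge := large d K hd0 (by omega)
  have hld : Real.log d ≤ 2 * L * Real.log b * K := by
    refine le_trans ?_ hlx2
    apply Real.log_le_log (by linarith)
    rw [hx]; push_cast
    nlinarith
  have hlarge2 : ∑ p ∈ d.primeFactors.filter (fun p => K < p), 1 / (p : ℝ) ≤
      2 * L * Real.log b / Real.log K := by
    refine hlarge.trans ?_
    rw [div_le_div_iff₀ (by positivity) (by linarith)]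
    nlinarith
  have hdvd : ∀ p : ℕ, p ∣ d → (p : ℤ) ∣ (pol w).eval ((b : ℤ) ^ k) := by
    intro p hp
    rw [← hD]
    exact Int.natCast_dvd.2 hp
  have hcond : (∑ p ∈ d.primeFactors with thr < ((p : ℕ) : ℝ), 1 / ((p : ℕ) : ℝ)) ≤
      A / Real.log (Real.log x) := by
    have h1 := split_thr (K := K) (k := k) (D := fun k => (pol w).eval ((b : ℤ) ^ k)) hb hdvd hthr2 t2
    refine h1.trans ?_
    calc _ ≤ B / Real.log K + 2 * L * Real.log b / Real.log K := add_le_add hg2 hlarge2
      _ = (B + 2 * L * Real.log b) / Real.log K := by ring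
      _ ≤ A / Real.log (Real.log x) := by
          rw [div_le_div_iff₀ (by linarith) hllx0, hA]
          have : 0 ≤ B + 2 * L * Real.log b := by positivity
          nlinarith
  have htot : Real.exp (-2 * E) ≤ (Nat.totient d : ℝ) / d := by
    refine le_trans ?_ (tot_exp d hd0)
    apply Real.exp_le_exp.2
    have h1 := split_all (K := K) (k := k) (D := fun k => (pol w).eval ((b : ℤ) ^ k)) hb hdvd
    have h5 : 2 * L * Real.log b / Real.log K ≤ 2 * L * Real.log b := by
      rw [div_le_iff₀ (by linarith)]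
      have : 0 ≤ 2 * L * Real.log b := by positivity
      nlinarith
    rw [hE]
    linarith
  have hsize : (d : ℝ) ≤ x ^ (1 - δ) := by
    rw [Real.rpow_sub hx0, Real.rpow_one, le_div_iff₀ (by positivity)]
    have h1 : x ^ δ ≤ y := by
      have h2 : x ^ δ ≤ ((b : ℝ) ^ (k * L)) ^ δ := by
        apply Real.rpow_le_rpow hx0.le _ hδ0.le
        exact hxN.trans (pow_le_pow_right₀ (by linarith) hN1)
      refine h2.trans (le_trans ?_ hybR)
      rw [← Real.rpow_natCast (b : ℝ) (k * L), ← Real.rpow_mul (by linarith),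
        ← Real.rpow_natCast (b : ℝ) (k - 1)]
      apply Real.rpow_le_rpow_of_exponent_le (by linarith)
      rw [hδ, Nat.cast_sub hk1]
      push_cast
      have h3 : (k : ℝ) * L * (1 / (4 * L)) = k / 4 := by field_simp
      rw [h3]
      linarith
    calc (d : ℝ) * x ^ δ ≤ d * y := by gcongr
      _ = x := by rw [hx]; push_cast; ring
  -- the progression
  obtain ⟨u₀, hu₀, hu₀'⟩ := exists_word hb k 0 (by positivity)
  obtain ⟨u₁, hu₁, hu₁'⟩ := exists_word hb k y (by omega)
  have hval : ∀ u : List (Fin b), u.length = k → (value (subst u v w) : ℤ) =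
      value (subst u₀ v w) + D * value u := fun u hu => value_subst hb hu₀ hu₀' hu hv w
  set V := value (subst u₀ v w) with hV
  -- the start of the progression
  obtain ⟨z, hz⟩ : ∃ z : ℕ, ∀ i : ℕ, i ≤ y → ∃ u : List (Fin b), u.length = k ∧
      value (subst u v w) = z + d * i := by
    rcases lt_or_gt_of_ne hD0 with h | h
    · have hdD : ((d : ℕ) : ℤ) = -D := by
        rw [hd, Int.natCast_natAbs, abs_of_neg h]
      have h1 := hval u₁ hu₁
      rw [hu₁'] at h1
      refine ⟨value (subst u₁ v w), fun i hi => ?_⟩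
      obtain ⟨u, hu, hu'⟩ := exists_word hb k (y - i) (by omega)
      refine ⟨u, hu, ?_⟩
      have h2 := hval u hu
      rw [hu', Nat.cast_sub hi] at h2
      have h3 : (value (subst u v w) : ℤ) = ((value (subst u₁ v w) + d * i : ℕ) : ℤ) := by
        push_cast
        rw [h2, h1, hdD]; ring
      exact_mod_cast h3
    · have hdD : ((d : ℕ) : ℤ) = D := by
        rw [hd, Int.natCast_natAbs, abs_of_pos h]
      refine ⟨V, fun i hi => ?_⟩
      obtain ⟨u, hu, hu'⟩ := exists_word hb k i (by omega)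
      refine ⟨u, hu, ?_⟩
      have h2 := hval u hu
      rw [hu'] at h2
      have h3 : (value (subst u v w) : ℤ) = ((V + d * i : ℕ) : ℤ) := by
        push_cast
        rw [h2, hdD]
      exact_mod_cast h3
  obtain ⟨n, hn1, hn2, hn3, hn4⟩ := hbb x t1 d hd1 hsize hcond z z
  obtain ⟨i, hi⟩ := (Nat.modEq_iff_dvd' hn2.le).1 hn1.symm
  have hni : n = z + d * i := by omega
  have hiy : i ≤ y := by
    have h1 : (d : ℝ) * i ≤ d * y := by
      have h2 : ((z + d * i : ℕ) : ℝ) ≤ z + ((d * y : ℕ) : ℝ) := by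
        rw [← hni, ← hx]; exact hn3
      push_cast at h2
      linarith
    have h3 : d * i ≤ d * y := by exact_mod_cast h1
    exact Nat.le_of_mul_le_mul_left h3 hd1
  obtain ⟨u, hu, hu'⟩ := hz i hiy
  refine ⟨u, hu, fun p hp => ?_⟩
  rw [hu', ← hni, length_subst hu hv w, ← hN, Real.log_pow]
  refine lt_of_le_of_lt ?_ (hn4 p hp)
  obtain ⟨hF1, hF2⟩ := hR (N * Real.log b) (by
    rw [div_le_iff₀ hlb] at a4
    have h1 : (K : ℝ) ≤ N := by exact_mod_cast hkK.trans hN2
    nlinarith) (Real.log x) (by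
      refine le_trans ?_ hlxk
      have h1 : 1 / (2 * (L : ℝ)) * (N * Real.log b) ≤ 1 / (2 * (L : ℝ)) * ((k * L) * Real.log b) := by
        gcongr
      refine h1.trans (le_of_eq ?_)
      field_simp) hlxN
  have h3 : F (Real.log x) = Real.log x * (Real.log (Real.log x)) ^ 2 *
          Real.log (Real.log (Real.log (Real.log x))) / (Real.log (Real.log (Real.log x))) ^ 2 := rfl
  rw [← h3]
  calc c * (Real.exp (-2 * E) * (1 / (2 * L) / 8)) * F (N * Real.log b)
      = c * (Real.exp (-2 * E) * (1 / (2 * L) / 8 * F (N * Real.log b))) := by ring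
    _ ≤ c * ((Nat.totient d : ℝ) / d * F (Real.log x)) := by
        gcongr

end Pool.Agent.helper391_PT
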